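import Pool.Agent.H220.IC.Stm

/-!
# The certificate (helper296, for helper220)
-/

set_option autoImplicit false

open Finset

namespace Pool.Agent.H296.IC

open Pool.Agent.H220.IC

theorem half_sum (L Q : ℕ) (hL : 0 < L) :
    ∑ i ∈ range (L * (2 * Q)), (if (i / L) % 2 = 0 then (1 : ℝ) else 0) = L * Q := by
  induction Q with
  | zero => simp
  | succ Q ih =>
    have e : L * (2 * (Q + 1)) = L * (2 * Q) + (L + L) := by ring
    rw [e, sum_range_add, sum_range_add, ih]
    have h1 : ∑ x ∈ range L, (if ((L * (2 * Q) + x) / L) % 2 = 0 then (1 : ℝ) else 0) = L := by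
      have : ∀ x ∈ range L, (if ((L * (2 * Q) + x) / L) % 2 = 0 then (1 : ℝ) else 0) = 1 := by
        intro x hx
        rw [mem_range] at hx
        rw [Nat.mul_add_div hL, Nat.div_eq_of_lt hx, if_pos (by omega)]
      rw [sum_congr rfl this, sum_const, card_range, nsmul_eq_mul, mul_one]
    have h2 : ∑ x ∈ range L, (if ((L * (2 * Q) + (L + x)) / L) % 2 = 0 then (1 : ℝ) else 0) =
        0 := by
      refine sum_eq_zero fun x hx => ?_
      rw [mem_range] at hx
      have e2 : L * (2 * Q) + (L + x) = L * (2 * Q + 1) + x := by ring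
      rw [e2, Nat.mul_add_div hL, Nat.div_eq_of_lt hx, if_neg (by omega)]
    rw [h1, h2]
    push_cast
    ring

theorem tele0 {G : ℕ → ℝ} (hG : Monotone G) (n : ℕ) :
    ∑ b ∈ range n, (G (2 * b + 1) - G (2 * b)) ≤ G (2 * n) - G 0 := by
  induction n with
  | zero => simp
  | succ n ih =>
    rw [sum_range_succ]
    have h1 : G (2 * n + 1) ≤ G (2 * (n + 1)) := hG (by omega)
    linarith

theorem tele1 {f : ℕ → ℝ} (hf : Monotone f) (I : Finset ℕ) (w : ℕ → ℕ) (s t : ℕ)
    (hw : Monotone w) (hst : s ≤ t) (hI : ∀ l ∈ I, s ≤ w (2 * l) ∧ w (2 * l + 1) ≤ t) :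
    ∑ l ∈ I, (f (w (2 * l + 1)) - f (w (2 * l))) ≤ f t - f s := by
  obtain ⟨G, hG⟩ : ∃ G : ℕ → ℝ, ∀ x, G x = f (max s (min (w x) t)) := ⟨_, fun _ => rfl⟩
  have hGm : Monotone G := by
    intro x y hxy
    rw [hG, hG]
    exact hf (max_le_max le_rfl (min_le_min (hw hxy) le_rfl))
  have h1 : ∑ l ∈ I, (f (w (2 * l + 1)) - f (w (2 * l))) =
      ∑ l ∈ I, (G (2 * l + 1) - G (2 * l)) := by
    refine sum_congr rfl fun l hl => ?_
    obtain ⟨h2, h3⟩ := hI l hl
    have h4 : w (2 * l) ≤ w (2 * l + 1) := hw (by omega)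
    rw [hG, hG, min_eq_left h3, min_eq_left (h4.trans h3), max_eq_right h2,
      max_eq_right (h2.trans h4)]
  obtain ⟨n, hn⟩ : ∃ n, I ⊆ range n := by
    refine ⟨I.sup id + 1, fun l hl => ?_⟩
    rw [mem_range]
    have := Finset.le_sup (f := id) hl
    simp only [id] at this
    omega
  have h2 : ∑ l ∈ I, (G (2 * l + 1) - G (2 * l)) ≤ ∑ l ∈ range n, (G (2 * l + 1) - G (2 * l)) := by
    refine sum_le_sum_of_subset_of_nonneg hn fun l _ _ => ?_
    have := hGm (show 2 * l ≤ 2 * l + 1 by omega)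
    linarith
  have h3 := tele0 hGm n
  have h4 : G (2 * n) ≤ f t := by
    rw [hG]
    exact hf (max_le hst (min_le_right _ _))
  have h5 : f s ≤ G 0 := by
    rw [hG]
    exact hf (le_max_left _ _)
  linarith

/-- an array with equal rows, given by the parity of a counting function -/
theorem adm_par (K M : ℕ) (B : ℝ) (hB : 0 ≤ B) (U : Finset ℕ) (hU : U.card ≤ K) (nu : ℕ → ℕ)
    (hnu : Monotone nu) (hM : ∀ t, nu t ≤ M) (h0 : ∀ α ∈ U, ∀ t, t ≤ α → nu t = 0)
    (hv : B ^ 4 * ((K : ℝ) ^ 2 + (M : ℝ) ^ 2) * M ≤ 1) :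
    Adm (fun α t => if α ∈ U then B * (if nu t % 2 = 1 then (1 : ℝ) else 0) else 0) 1 := by
  obtain ⟨D, hD⟩ : ∃ D : ℝ, D = B ^ 4 * ((K : ℝ) ^ 2 + (M : ℝ) ^ 2) := ⟨_, rfl⟩
  have hD0 : 0 ≤ D := by rw [hD]; positivity
  have hK0 : (0 : ℝ) ≤ K := Nat.cast_nonneg _
  have hM0 : (0 : ℝ) ≤ M := Nat.cast_nonneg _
  have hnur : Monotone fun t => (nu t : ℝ) := fun s t hst => by
    have := hnu hst
    show (nu s : ℝ) ≤ nu t
    exact_mod_cast this
  rw [← hD] at hv
  refine ⟨?_, fun t => D * nu t, ?_, ?_, ?_, ?_, ?_⟩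
  · intro α t ht
    simp only
    split_ifs with h1 h2
    · rw [h0 α h1 t ht] at h2
      omega
    · rw [mul_zero]
    · rfl
  · intro s t hst
    exact mul_le_mul_of_nonneg_left (hnur hst) hD0
  · intro t
    positivity
  · intro t
    refine le_trans (mul_le_mul_of_nonneg_left ?_ hD0) hv
    exact_mod_cast hM t
  · intro A s t hst
    simp only
    by_cases he : nu t = nu s
    · have h1 : ∑ α ∈ A, ((if α ∈ U then B * (if nu t % 2 = 1 then (1 : ℝ) else 0) else 0) -
          (if α ∈ U then B * (if nu s % 2 = 1 then (1 : ℝ) else 0) else 0)) ^ 2 = 0 := by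
        refine sum_eq_zero fun α _ => ?_
        rw [he, sub_self]
        norm_num
      rw [h1, he]
      norm_num
    · have h1 : (1 : ℝ) ≤ (nu t : ℝ) - nu s := by
        have h2 := hnu hst
        have h3 : nu s + 1 ≤ nu t := by omega
        have h4 : ((nu s + 1 : ℕ) : ℝ) ≤ nu t := by exact_mod_cast h3
        push_cast at h4
        linarith
      have h2 : ∑ α ∈ A, ((if α ∈ U then B * (if nu t % 2 = 1 then (1 : ℝ) else 0) else 0) -
          (if α ∈ U then B * (if nu s % 2 = 1 then (1 : ℝ) else 0) else 0)) ^ 2 ≤ K * B ^ 2 := by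
        calc _ ≤ ∑ α ∈ A, (if α ∈ U then B ^ 2 else 0) := by
              refine sum_le_sum fun α _ => ?_
              have hB2 : 0 ≤ B ^ 2 := sq_nonneg B
              split_ifs <;> nlinarith
          _ = ((A.filter (fun α => α ∈ U)).card : ℝ) * B ^ 2 := by
              rw [← sum_filter, sum_const, nsmul_eq_mul]
          _ ≤ K * B ^ 2 := by
              refine mul_le_mul_of_nonneg_right ?_ (sq_nonneg B)
              have h5 : (A.filter (fun α => α ∈ U)).card ≤ U.card :=
                card_le_card fun α hα => (mem_filter.1 hα).2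
              exact_mod_cast h5.trans hU
      have h3 : 0 ≤ ∑ α ∈ A, ((if α ∈ U then B * (if nu t % 2 = 1 then (1 : ℝ) else 0) else 0) -
          (if α ∈ U then B * (if nu s % 2 = 1 then (1 : ℝ) else 0) else 0)) ^ 2 :=
        sum_nonneg fun _ _ => sq_nonneg _
      have h4 := pow_le_pow_left₀ h3 h2 2
      refine h4.trans ?_
      have h5 : (K * B ^ 2) ^ 2 ≤ D := by
        rw [hD]
        have : 0 ≤ B ^ 4 * (M : ℝ) ^ 2 := by positivity
        nlinarith
      calc (K * B ^ 2) ^ 2 ≤ D * 1 := by rw [mul_one]; exact h5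
        _ ≤ D * ((nu t : ℝ) - nu s) := mul_le_mul_of_nonneg_left h1 hD0
        _ = _ := by ring
  · intro α I w s t hw hst hI
    simp only
    have hδ0 : (0 : ℝ) ≤ (nu t : ℝ) - nu s := sub_nonneg.2 (hnur hst)
    by_cases hα : α ∈ U
    · simp only [if_pos hα]
      obtain ⟨q, hq⟩ : ∃ q : ℝ, q = ∑ l ∈ I, (if nu (w (2 * l + 1)) ≠ nu (w (2 * l)) then
        (1 : ℝ) else 0) := ⟨_, rfl⟩
      have hq0 : 0 ≤ q := by
        rw [hq]
        refine sum_nonneg fun l _ => ?_
        split_ifs <;> norm_num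
      have h1 : ∑ l ∈ I, |B * (if nu (w (2 * l + 1)) % 2 = 1 then (1 : ℝ) else 0) -
          B * (if nu (w (2 * l)) % 2 = 1 then (1 : ℝ) else 0)| ≤ B * q := by
        rw [hq, mul_sum]
        refine sum_le_sum fun l _ => ?_
        by_cases he : nu (w (2 * l + 1)) = nu (w (2 * l))
        · rw [he, sub_self, abs_zero, if_neg (by simp), mul_zero]
        · rw [if_pos he, mul_one, ← mul_sub, abs_mul, abs_of_nonneg hB]
          refine mul_le_of_le_one_right hB ?_
          split_ifs <;> norm_num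
      have h2 : q ≤ I.card := by
        rw [hq]
        calc _ ≤ ∑ l ∈ I, (1 : ℝ) := sum_le_sum fun l _ => by split_ifs <;> norm_num
          _ = I.card := by rw [sum_const, nsmul_eq_mul, mul_one]
      have h3 : q ≤ (nu t : ℝ) - nu s := by
        refine le_trans ?_ (tele1 hnur I w s t hw hst hI)
        rw [hq]
        refine sum_le_sum fun l _ => ?_
        have h4 : nu (w (2 * l)) ≤ nu (w (2 * l + 1)) := hnu (hw (by omega))
        split_ifs with he
        · have h5 : nu (w (2 * l)) + 1 ≤ nu (w (2 * l + 1)) := by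
            have : nu (w (2 * l + 1)) ≠ nu (w (2 * l)) := he
            omega
          have h6 : ((nu (w (2 * l)) + 1 : ℕ) : ℝ) ≤ nu (w (2 * l + 1)) := by exact_mod_cast h5
          push_cast at h6
          linarith
        · have h6 : (nu (w (2 * l)) : ℝ) ≤ nu (w (2 * l + 1)) := by exact_mod_cast h4
          linarith
      have h4 : (nu t : ℝ) - nu s ≤ M := by
        have h5 : (nu t : ℝ) ≤ M := by exact_mod_cast hM t
        have h6 : (0 : ℝ) ≤ nu s := Nat.cast_nonneg _
        linarith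
      have h5 : 0 ≤ ∑ l ∈ I, |B * (if nu (w (2 * l + 1)) % 2 = 1 then (1 : ℝ) else 0) -
          B * (if nu (w (2 * l)) % 2 = 1 then (1 : ℝ) else 0)| :=
        sum_nonneg fun _ _ => abs_nonneg _
      refine (pow_le_pow_left₀ h5 h1 4).trans ?_
      have h6 : q ^ 4 ≤ I.card * ((nu t : ℝ) - nu s) * (M : ℝ) ^ 2 := by
        calc q ^ 4 = q * q * q ^ 2 := by ring
          _ ≤ I.card * ((nu t : ℝ) - nu s) * (M : ℝ) ^ 2 := by
              refine mul_le_mul (mul_le_mul h2 h3 hq0 (Nat.cast_nonneg _)) ?_ (sq_nonneg _)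
                (mul_nonneg (Nat.cast_nonneg _) hδ0)
              exact pow_le_pow_left₀ hq0 (h3.trans h4) 2
      have h7 : B ^ 4 * (M : ℝ) ^ 2 ≤ D := by
        rw [hD]
        have : 0 ≤ B ^ 4 * (K : ℝ) ^ 2 := by positivity
        nlinarith
      calc (B * q) ^ 4 = B ^ 4 * q ^ 4 := by ring
        _ ≤ B ^ 4 * (I.card * ((nu t : ℝ) - nu s) * (M : ℝ) ^ 2) :=
            mul_le_mul_of_nonneg_left h6 (by positivity)
        _ = (B ^ 4 * (M : ℝ) ^ 2) * (I.card * ((nu t : ℝ) - nu s)) := by ring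
        _ ≤ D * (I.card * ((nu t : ℝ) - nu s)) :=
            mul_le_mul_of_nonneg_right h7 (mul_nonneg (Nat.cast_nonneg _) hδ0)
        _ = _ := by ring
    · simp only [if_neg hα, sub_self, abs_zero, sum_const_zero]
      have : 0 ≤ (I.card : ℝ) * (D * nu t - D * nu s) := by
        refine mul_nonneg (Nat.cast_nonneg _) ?_
        rw [← mul_sub]
        exact mul_nonneg hD0 hδ0
      calc (0 : ℝ) ^ 4 = 0 := by norm_num
        _ ≤ _ := this

/-- The counting function. -/
def cnt (K T : ℕ) (u : ℕ → ℕ) (t : ℕ) : ℕ := ((range T).filter fun i => u (K + i) ≤ t).card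

theorem cnt_mono (K T : ℕ) (u : ℕ → ℕ) : Monotone (cnt K T u) := by
  intro t t' h
  refine card_le_card fun i hi => ?_
  simp only [mem_filter] at hi ⊢
  exact ⟨hi.1, hi.2.trans h⟩

theorem cnt_le (K T : ℕ) (u : ℕ → ℕ) (t : ℕ) : cnt K T u t ≤ T := by
  refine (card_le_card (filter_subset _ _)).trans ?_
  rw [card_range]

theorem s_cert : S_cert := by
  intro N u hN hst
  obtain ⟨K, hK⟩ : ∃ K, K = N ^ 6 := ⟨_, rfl⟩
  obtain ⟨T, hT⟩ : ∃ T, T = 2 * N ^ 6 := ⟨_, rfl⟩
  obtain ⟨L, hL⟩ : ∃ L, L = N ^ 2 := ⟨_, rfl⟩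
  obtain ⟨M, hM⟩ : ∃ M, M = 2 * N ^ 4 := ⟨_, rfl⟩
  have hTL : T = L * M := by rw [hT, hL, hM]; ring
  have hL0 : 0 < L := by rw [hL]; positivity
  have hNr : (1 : ℝ) ≤ N := by exact_mod_cast hN
  have hN0 : (0 : ℝ) < N := by linarith
  rw [← hT, ← hK] at hst
  have hinj : ∀ p < K, ∀ q < K, u p = u q → p = q := by
    intro p hp q hq he
    by_contra hne
    rcases lt_or_gt_of_ne hne with h | h
    · have := hst p q h (by omega)
      omega
    · have := hst q p h (by omega)
      omega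
  obtain ⟨nu, hnu⟩ : ∃ nu : ℕ → ℕ, ∀ t, nu t = (cnt K T u t + (L - 1)) / L := ⟨_, fun _ => rfl⟩
  have hnum : Monotone nu := by
    intro s t h
    rw [hnu, hnu]
    exact Nat.div_le_div_right (Nat.add_le_add_right (cnt_mono K T u h) _)
  have hnuM : ∀ t, nu t ≤ M := by
    intro t
    rw [hnu]
    have h1 := cnt_le K T u t
    have h2 : (cnt K T u t + (L - 1)) / L < M + 1 := by
      rw [Nat.div_lt_iff_lt_mul hL0]
      have : (M + 1) * L = L * M + L := by ring
      omega
    omega
  obtain ⟨U, hU⟩ : ∃ U, U = (range K).image u := ⟨_, rfl⟩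
  have hUc : U.card ≤ K := by
    rw [hU]
    refine card_image_le.trans ?_
    rw [card_range]
  have hU0 : ∀ α ∈ U, ∀ t, t ≤ α → nu t = 0 := by
    intro α hα t ht
    rw [hU, mem_image] at hα
    obtain ⟨p, hp, rfl⟩ := hα
    rw [mem_range] at hp
    have hc : cnt K T u t = 0 := by
      unfold cnt
      rw [card_eq_zero, filter_eq_empty_iff]
      intro i hi
      rw [mem_range] at hi
      have := hst p (K + i) (by omega) (by omega)
      omega
    rw [hnu, hc, zero_add]
    exact Nat.div_eq_of_lt (by omega)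
  obtain ⟨B, hB⟩ : ∃ B : ℝ, B = 1 / (2 * (N : ℝ) ^ 4) := ⟨_, rfl⟩
  have hB0 : 0 ≤ B := by rw [hB]; positivity
  have hv : B ^ 4 * ((K : ℝ) ^ 2 + (M : ℝ) ^ 2) * M ≤ 1 := by
    rw [hB, hK, hM]
    push_cast
    have e : (1 / (2 * (N : ℝ) ^ 4)) ^ 4 * (((N : ℝ) ^ 6) ^ 2 + (2 * (N : ℝ) ^ 4) ^ 2) *
        (2 * (N : ℝ) ^ 4) = 1 / 8 + 1 / (2 * (N : ℝ) ^ 4) := by
      field_simp
      ring
    rw [e]
    have h1 : 1 / (2 * (N : ℝ) ^ 4) ≤ 1 / 2 := by
      apply one_div_le_one_div_of_le (by norm_num)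
      have := one_le_pow₀ hNr (n := 4)
      linarith
    linarith
  have hadm := adm_par K M B hB0 U hUc nu hnum hnuM hU0 hv
  obtain ⟨ψ, hψ1, hψ2⟩ := exists_mk (v := 1) zero_le_one (by rw [one_pow]; exact hadm)
  refine ⟨ψ, hψ2, ?_, ?_⟩
  · have hcnt : ∀ i, i < T → cnt K T u (u (K + i)) = i + 1 := by
      intro i hi
      unfold cnt
      have : (range T).filter (fun j => u (K + j) ≤ u (K + i)) = range (i + 1) := by
        ext j
        simp only [mem_filter, mem_range]
        constructor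
        · rintro ⟨hj, hle⟩
          by_contra hc
          have := hst (K + i) (K + j) (by omega) (by omega)
          omega
        · intro hj
          refine ⟨by omega, ?_⟩
          rcases Nat.lt_or_ge j i with h | h
          · exact (hst (K + j) (K + i) (by omega) (by omega)).le
          · have : j = i := by omega
            rw [this]
      rw [this, card_range]
    have hc : ∀ i, i < T → nu (u (K + i)) = i / L + 1 := by
      intro i hi
      rw [hnu, hcnt i hi]
      have : i + 1 + (L - 1) = i + L := by omega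
      rw [this, Nat.add_div_right _ hL0]
    have hval : ∀ p ∈ range (N ^ 6), ψ (row N (u p) (fun i => u (N ^ 6 + i))) =
        1 / (N : ℝ) ^ 3 * B * (N : ℝ) ^ 6 := by
      intro p hp
      rw [← hK] at hp ⊢
      have hpU : u p ∈ U := by
        rw [hU]
        exact mem_image_of_mem u hp
      unfold row
      rw [map_sum, ← hT]
      have h1 : ∀ i ∈ range T, ψ ((sg N i / (N : ℝ) ^ 3) • del (u p) (u (K + i))) =
          1 / (N : ℝ) ^ 3 * B * (if (i / L) % 2 = 0 then (1 : ℝ) else 0) := by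
        intro i hi
        rw [map_smul, smul_eq_mul]
        have h2 : ψ (del (u p) (u (K + i))) =
            B * (if nu (u (K + i)) % 2 = 1 then (1 : ℝ) else 0) := by
          change sy ψ (u p) (u (K + i)) = _
          rw [hψ1, if_pos hpU]
        rw [h2, hc i (mem_range.1 hi)]
        unfold sg
        rw [← hL]
        by_cases h3 : (i / L) % 2 = 0
        · rw [if_pos h3, if_pos h3, if_pos (by omega)]
          ring
        · rw [if_neg h3, if_neg h3, if_neg (by omega)]
          ring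
      rw [sum_congr rfl h1, ← mul_sum]
      have h4 : T = L * (2 * N ^ 4) := by rw [hTL, hM]
      rw [h4, half_sum L (N ^ 4) hL0, hL]
      push_cast
      ring
    unfold FF
    rw [map_sum, sum_congr rfl hval, sum_const, card_range, nsmul_eq_mul, hB]
    push_cast
    field_simp
  · intro α hα t
    rw [hψ1, if_neg]
    rw [hU, mem_image]
    rintro ⟨p, hp, rfl⟩
    rw [mem_range, hK] at hp
    exact hα p hp rfl

end Pool.Agent.H296.IC
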